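import Mathlib
set_option autoImplicit false
open Quaternion Topology

/-!
# Components of character varieties without rational points

Let `D` be a natural number that is not a square and `K = ℚ(√D)`.  Let `G` be the restriction of
scalars from `K` to `ℚ` of the projective group `PGL₁(B)`, `B` the Hamilton quaternions over `K`.
Then `G(ℝ) = ℍˣ/ℝˣ × ℍˣ/ℝˣ` (the group `SO(3) × SO(3)`), and `G(ℚ) = Bˣ/Kˣ`, embedded by the two
real embeddings of `K`.  A representation of the surface group in `G(ℝ)` has two signs, the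
obstructions to lifting its two components to the unit quaternions.  They are constant on the
connected components of the character variety, and for a representation into `G(ℚ)` the two signs
agree.  There are representations, also irreducible ones, whose signs are `(-1, 1)`.
-/

namespace Pool.Agent.Results.MP_52c00a_gt.NoRationalPoint

/-- The quaternion `a + b i + c j + d k`. -/
def mkq {R : Type*} [CommRing R] (a b c d : R) : ℍ[R] := ⟨a, b, c, d⟩

section
variable {R : Type*} [CommRing R] (a b c d : R)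
@[simp] lemma re_mkq : (mkq a b c d).re = a := rfl
@[simp] lemma imI_mkq : (mkq a b c d).imI = b := rfl
@[simp] lemma imJ_mkq : (mkq a b c d).imJ = c := rfl
@[simp] lemma imK_mkq : (mkq a b c d).imK = d := rfl
end

/-- The group `ℍˣ / ℝˣ`. -/
abbrev PH : Type := ℍ[ℝ]ˣ ⧸ Subgroup.center ℍ[ℝ]ˣ

/-- `G(ℝ)`. -/
abbrev GR : Type := PH × PH

/-- The quaternion `a + s b`. -/
noncomputable def quat (s : ℝ) (a b : ℍ[ℚ]) : ℍ[ℝ] :=
  mkq (a.re + s * b.re) (a.imI + s * b.imI) (a.imJ + s * b.imJ) (a.imK + s * b.imK)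

/-- The map of quaternions induced by a ring homomorphism. -/
def qmap {R S : Type*} [CommRing R] [CommRing S] (f : R →+* S) : ℍ[R] →+* ℍ[S] where
  toFun q := mkq (f q.re) (f q.imI) (f q.imJ) (f q.imK)
  map_one' := by ext <;> simp
  map_zero' := by ext <;> simp
  map_mul' x y := by ext <;> simp
  map_add' x y := by ext <;> simp

section
variable {R S : Type*} [CommRing R] [CommRing S] (f : R →+* S) (q : ℍ[R])
@[simp] lemma re_qmap : (qmap f q).re = f q.re := rfl
@[simp] lemma imI_qmap : (qmap f q).imI = f q.imI := rfl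
@[simp] lemma imJ_qmap : (qmap f q).imJ = f q.imJ := rfl
@[simp] lemma imK_qmap : (qmap f q).imK = f q.imK := rfl
end

lemma unit_inv (u : ℍ[ℝ]ˣ) : ((u⁻¹ : ℍ[ℝ]ˣ) : ℍ[ℝ]) = (normSq (u : ℍ[ℝ]))⁻¹ • star (u : ℍ[ℝ]) := by
  rw [Units.val_inv_eq_inv_val, inv_def]

lemma mkq_ne_zero {a b c d : ℝ} (h : a ≠ 0 ∨ b ≠ 0 ∨ c ≠ 0 ∨ d ≠ 0) : mkq a b c d ≠ 0 := by
  intro h'
  have h1 := congrArg (fun q => q.re) h'
  have h2 := congrArg (fun q => q.imI) h'
  have h3 := congrArg (fun q => q.imJ) h'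
  have h4 := congrArg (fun q => q.imK) h'
  simp at h1 h2 h3 h4
  simp [h1, h2, h3, h4] at h

lemma center_val {u : ℍ[ℝ]ˣ} (hu : u ∈ Subgroup.center ℍ[ℝ]ˣ) :
    (u : ℍ[ℝ]) = ((u : ℍ[ℝ]).re : ℍ[ℝ]) := by
  rw [Subgroup.mem_center_iff] at hu
  have hi : (mkq 0 1 0 0 : ℍ[ℝ]) ≠ 0 := mkq_ne_zero (by simp)
  have hj : (mkq 0 0 1 0 : ℍ[ℝ]) ≠ 0 := mkq_ne_zero (by simp)
  have h1 : (mkq 0 1 0 0 : ℍ[ℝ]) * (u : ℍ[ℝ]) = (u : ℍ[ℝ]) * (mkq 0 1 0 0 : ℍ[ℝ]) :=
    congrArg (fun q : ℍ[ℝ]ˣ => (q : ℍ[ℝ])) (hu (Units.mk0 _ hi))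
  have h2 : (mkq 0 0 1 0 : ℍ[ℝ]) * (u : ℍ[ℝ]) = (u : ℍ[ℝ]) * (mkq 0 0 1 0 : ℍ[ℝ]) :=
    congrArg (fun q : ℍ[ℝ]ˣ => (q : ℍ[ℝ])) (hu (Units.mk0 _ hj))
  have a1 := congrArg (fun q => q.imJ) h1
  have a2 := congrArg (fun q => q.imK) h1
  have a3 := congrArg (fun q => q.imK) h2
  simp at a1 a2 a3
  ext
  · simp
  · simp; linarith
  · simp; linarith
  · simp; linarith

lemma mem_center_of_val {u : ℍ[ℝ]ˣ} (r : ℝ) (hu : (u : ℍ[ℝ]) = (r : ℍ[ℝ])) :
    u ∈ Subgroup.center ℍ[ℝ]ˣ := by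
  rw [Subgroup.mem_center_iff]
  intro g
  ext1
  rw [Units.val_mul, Units.val_mul, hu]
  exact (coe_commutes r _).symm

/-- The commutator of two elements of `PH`, lifted to `ℍˣ`. -/
noncomputable def cm (x y : PH) : ℍ[ℝ]ˣ := x.out * y.out * x.out⁻¹ * y.out⁻¹

lemma commutator_center {u v z w : ℍ[ℝ]ˣ} (hz : z ∈ Subgroup.center ℍ[ℝ]ˣ)
    (hw : w ∈ Subgroup.center ℍ[ℝ]ˣ) :
    (u * z) * (v * w) * (u * z)⁻¹ * (v * w)⁻¹ = u * v * u⁻¹ * v⁻¹ := by
  rw [Subgroup.mem_center_iff] at hz hw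
  rw [mul_inv_rev, mul_inv_rev]
  calc u * z * (v * w) * (z⁻¹ * u⁻¹) * (w⁻¹ * v⁻¹)
      = u * (z * (v * w)) * z⁻¹ * u⁻¹ * w⁻¹ * v⁻¹ := by group
    _ = u * ((v * w) * z) * z⁻¹ * u⁻¹ * w⁻¹ * v⁻¹ := by rw [hz]
    _ = u * v * (w * u⁻¹) * w⁻¹ * v⁻¹ := by group
    _ = u * v * (u⁻¹ * w) * w⁻¹ * v⁻¹ := by rw [hw]
    _ = u * v * u⁻¹ * v⁻¹ := by group

lemma cm_mk (u v : ℍ[ℝ]ˣ) : cm (u : PH) (v : PH) = u * v * u⁻¹ * v⁻¹ := by
  obtain ⟨z, hz⟩ := QuotientGroup.mk_out_eq_mul (Subgroup.center ℍ[ℝ]ˣ) u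
  obtain ⟨w, hw⟩ := QuotientGroup.mk_out_eq_mul (Subgroup.center ℍ[ℝ]ˣ) v
  rw [cm, hz, hw]
  exact commutator_center z.2 w.2

lemma mk_cm (x y : PH) : ((cm x y : ℍ[ℝ]ˣ) : PH) = x * y * x⁻¹ * y⁻¹ := by
  induction x using QuotientGroup.induction_on with | _ u =>
  induction y using QuotientGroup.induction_on with | _ v =>
  rw [cm_mk]
  rfl

lemma continuous_cm : Continuous fun p : PH × PH => cm p.1 p.2 := by
  have hq : IsOpenQuotientMap (Prod.map (QuotientGroup.mk : ℍ[ℝ]ˣ → PH)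
      (QuotientGroup.mk : ℍ[ℝ]ˣ → PH)) :=
    QuotientGroup.isOpenQuotientMap_mk.prodMap QuotientGroup.isOpenQuotientMap_mk
  rw [hq.isQuotientMap.continuous_iff]
  have : (fun p : PH × PH => cm p.1 p.2) ∘ Prod.map (QuotientGroup.mk : ℍ[ℝ]ˣ → PH)
      (QuotientGroup.mk : ℍ[ℝ]ˣ → PH) = fun p => p.1 * p.2 * p.1⁻¹ * p.2⁻¹ := by
    ext1 ⟨u, v⟩
    exact cm_mk u v
  rw [this]
  fun_prop


/-! ### Representations of the surface group -/

/-- The product of the commutators of a tuple of pairs in a group. -/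
def relator {G : Type*} [Group G] {g : ℕ} (p : Fin g → G × G) : G :=
  ((List.finRange g).map fun i => (p i).1 * (p i).2 * (p i).1⁻¹ * (p i).2⁻¹).prod

/-- The space of representations. -/
abbrev Rep (g : ℕ) : Type := {p : Fin g → GR × GR // relator p = 1}

lemma relator_conj {G : Type*} [Group G] {g : ℕ} (x : G) (p : Fin g → G × G) :
    relator (fun i => (x * (p i).1 * x⁻¹, x * (p i).2 * x⁻¹)) = x * relator p * x⁻¹ := by
  unfold relator
  induction List.finRange g with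
  | nil => simp
  | cons i l ih =>
    rw [List.map_cons, List.prod_cons, ih, List.map_cons, List.prod_cons]
    group

/-- The action of `G(ℝ)` by conjugation. -/
noncomputable def conj {g : ℕ} (x : GR) (ρ : Rep g) : Rep g :=
  ⟨fun i => (x * (ρ.1 i).1 * x⁻¹, x * (ρ.1 i).2 * x⁻¹), by rw [relator_conj, ρ.2]; group⟩

/-- The obstruction: the product of the lifted commutators. -/
noncomputable def ob {g : ℕ} (p : Fin g → PH × PH) : ℍ[ℝ]ˣ :=
  ((List.finRange g).map fun i => cm (p i).1 (p i).2).prod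

lemma continuous_ob (g : ℕ) : Continuous (ob : (Fin g → PH × PH) → ℍ[ℝ]ˣ) := by
  apply continuous_list_prod
  intro i _
  exact continuous_cm.comp (continuous_apply i)

lemma mk_ob {g : ℕ} (p : Fin g → PH × PH) : ((ob p : ℍ[ℝ]ˣ) : PH) = relator p := by
  unfold ob relator
  induction List.finRange g with
  | nil => rfl
  | cons i l ih =>
    rw [List.map_cons, List.prod_cons, List.map_cons, List.prod_cons, ← ih, ← mk_cm]
    rfl

lemma normSq_cm (x y : PH) : normSq (cm x y : ℍ[ℝ]) = 1 := by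
  have hx : normSq (x.out : ℍ[ℝ]) ≠ 0 := normSq_ne_zero.2 x.out.ne_zero
  have hy : normSq (y.out : ℍ[ℝ]) ≠ 0 := normSq_ne_zero.2 y.out.ne_zero
  rw [cm]
  simp only [Units.val_mul, map_mul, Units.val_inv_eq_inv_val, map_inv₀]
  field_simp

lemma normSq_ob {g : ℕ} (p : Fin g → PH × PH) : normSq (ob p : ℍ[ℝ]) = 1 := by
  unfold ob
  induction List.finRange g with
  | nil => simp
  | cons i l ih =>
    rw [List.map_cons, List.prod_cons, Units.val_mul, map_mul, ih, normSq_cm, mul_one]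

lemma ob_val {g : ℕ} {p : Fin g → PH × PH} (hp : relator p = 1) :
    (ob p : ℍ[ℝ]) = ((ob p : ℍ[ℝ]).re : ℍ[ℝ]) ∧ ((ob p : ℍ[ℝ]).re = 1 ∨ (ob p : ℍ[ℝ]).re = -1) := by
  have h1 : ob p ∈ Subgroup.center ℍ[ℝ]ˣ := by
    rw [← QuotientGroup.eq_one_iff, mk_ob, hp]
  have h2 := center_val h1
  refine ⟨h2, ?_⟩
  have h3 := normSq_ob p
  rw [h2, normSq_coe] at h3
  have h4 : ((ob p : ℍ[ℝ]).re - 1) * ((ob p : ℍ[ℝ]).re + 1) = 0 := by linear_combination h3
  rcases mul_eq_zero.1 h4 with h | h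
  · exact Or.inl (by linarith)
  · exact Or.inr (by linarith)

lemma cm_conj (x a b : PH) :
    cm (x * a * x⁻¹) (x * b * x⁻¹) = x.out * cm a b * x.out⁻¹ := by
  have hx : (x.out : PH) = x := Quotient.out_eq' x
  have ha : (a.out : PH) = a := Quotient.out_eq' a
  have hb : (b.out : PH) = b := Quotient.out_eq' b
  have h : cm ((x.out * a.out * x.out⁻¹ : ℍ[ℝ]ˣ) : PH) ((x.out * b.out * x.out⁻¹ : ℍ[ℝ]ˣ) : PH) =
      x.out * cm a b * x.out⁻¹ := by
    rw [cm_mk, cm]
    group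
  rw [← h]
  congr 1
  · rw [QuotientGroup.mk_mul, QuotientGroup.mk_mul, QuotientGroup.mk_inv, hx, ha]
  · rw [QuotientGroup.mk_mul, QuotientGroup.mk_mul, QuotientGroup.mk_inv, hx, hb]

lemma ob_conj {g : ℕ} (x : PH) {p : Fin g → PH × PH} (hp : relator p = 1) :
    ob (fun i => (x * (p i).1 * x⁻¹, x * (p i).2 * x⁻¹)) = ob p := by
  have h1 : ob (fun i => (x * (p i).1 * x⁻¹, x * (p i).2 * x⁻¹)) = x.out * ob p * x.out⁻¹ := by
    unfold ob
    induction List.finRange g with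
    | nil => simp
    | cons i l ih =>
      rw [List.map_cons, List.prod_cons, ih, List.map_cons, List.prod_cons, cm_conj]
      group
  have h2 : ob p ∈ Subgroup.center ℍ[ℝ]ˣ := by
    rw [← QuotientGroup.eq_one_iff, mk_ob, hp]
  rw [h1, Subgroup.mem_center_iff.1 h2]
  group


/-! ### Rational representations -/

open Polynomial in
/-- The quaternion `a + X b` with coefficients in `ℚ[X]`. -/
noncomputable def polyQuat (a b : ℍ[ℚ]) : ℍ[ℚ[X]] :=
  mkq (C a.re + X * C b.re) (C a.imI + X * C b.imI) (C a.imJ + X * C b.imJ) (C a.imK + X * C b.imK)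

open Polynomial in
/-- The evaluation at `s`. -/
noncomputable def ev (s : ℝ) : ℚ[X] →+* ℝ := (aeval s : ℚ[X] →ₐ[ℚ] ℝ).toRingHom

open Polynomial in
lemma qmap_polyQuat (s : ℝ) (a b : ℍ[ℚ]) : qmap (ev s) (polyQuat a b) = quat s a b := by
  ext <;> simp [polyQuat, quat, ev] <;> ring

lemma qmap_star {R S : Type*} [CommRing R] [CommRing S] (f : R →+* S) (q : ℍ[R]) :
    qmap f (star q) = star (qmap f q) := by
  ext <;> simp

lemma normSq_qmap {R S : Type*} [CommRing R] [CommRing S] (f : R →+* S) (q : ℍ[R]) :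
    normSq (qmap f q) = f (normSq q) := by
  rw [normSq_def', normSq_def']
  simp

lemma cm_val (u v : ℍ[ℝ]ˣ) :
    ((u * v * u⁻¹ * v⁻¹ : ℍ[ℝ]ˣ) : ℍ[ℝ]) =
      (normSq (u : ℍ[ℝ]) * normSq (v : ℍ[ℝ]))⁻¹ • ((u : ℍ[ℝ]) * v * star (u : ℍ[ℝ]) * star (v : ℍ[ℝ])) := by
  rw [Units.val_mul, Units.val_mul, Units.val_mul, unit_inv, unit_inv, mul_inv_rev]
  simp only [mul_smul_comm, smul_mul_assoc, smul_smul]

open Polynomial in
/-- If the entries of `p` are the classes of the quaternions `a + s b`, then the obstruction is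
the value at `s` of a quaternion with polynomial entries, up to the value at `s` of a scalar
polynomial. -/
lemma ob_poly {g : ℕ} (s : ℝ) (a b c d : Fin g → ℍ[ℚ]) (u v : Fin g → ℍ[ℝ]ˣ)
    (hu : ∀ i, (u i : ℍ[ℝ]) = quat s (a i) (b i)) (hv : ∀ i, (v i : ℍ[ℝ]) = quat s (c i) (d i)) :
    ev s ((List.finRange g).map fun i => normSq (polyQuat (a i) (b i)) *
        normSq (polyQuat (c i) (d i))).prod ≠ 0 ∧
    ev s ((List.finRange g).map fun i => normSq (polyQuat (a i) (b i)) *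
        normSq (polyQuat (c i) (d i))).prod • (ob (fun i => ((u i : PH), (v i : PH))) : ℍ[ℝ]) =
      qmap (ev s) ((List.finRange g).map fun i => polyQuat (a i) (b i) * polyQuat (c i) (d i) *
        star (polyQuat (a i) (b i)) * star (polyQuat (c i) (d i))).prod := by
  unfold ob
  induction List.finRange g with
  | nil => simp
  | cons i l ih =>
    obtain ⟨ih1, ih2⟩ := ih
    have hnu : ev s (normSq (polyQuat (a i) (b i))) = normSq (u i : ℍ[ℝ]) := by
      rw [← normSq_qmap, qmap_polyQuat, hu]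
    have hnv : ev s (normSq (polyQuat (c i) (d i))) = normSq (v i : ℍ[ℝ]) := by
      rw [← normSq_qmap, qmap_polyQuat, hv]
    have h0u : normSq (u i : ℍ[ℝ]) ≠ 0 := normSq_ne_zero.2 (u i).ne_zero
    have h0v : normSq (v i : ℍ[ℝ]) ≠ 0 := normSq_ne_zero.2 (v i).ne_zero
    simp only [List.map_cons, List.prod_cons]
    refine ⟨?_, ?_⟩
    · rw [map_mul, map_mul, hnu, hnv]
      exact mul_ne_zero (mul_ne_zero h0u h0v) ih1
    · rw [map_mul (qmap (ev s)), ← ih2, map_mul (ev s), map_mul (ev s), hnu, hnv, Units.val_mul,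
        cm_mk, cm_val]
      simp only [map_mul, qmap_star, qmap_polyQuat, ← hu, ← hv]
      rw [mul_smul_comm, smul_mul_assoc, smul_smul]
      congr 1
      field_simp

open Polynomial in
lemma ev_conj {D : ℕ} (hD : ¬ IsSquare D) {f : ℚ[X]} (hf : ev (√D) f = 0) : ev (-√D) f = 0 := by
  have hD0 : (0 : ℝ) ≤ D := Nat.cast_nonneg D
  have hirr : Irrational (√(D : ℝ)) := by
    rw [irrational_sqrt_natCast_iff]
    exact hD
  have hmonic : (X ^ 2 - C (D : ℚ) : ℚ[X]).Monic := by monicity!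
  have hdeg : (X ^ 2 - C (D : ℚ) : ℚ[X]).natDegree = 2 := by compute_degree!
  set r := f %ₘ (X ^ 2 - C (D : ℚ)) with hr
  have hrdeg : r.natDegree < 2 := by
    have := natDegree_modByMonic_lt f hmonic (by
      intro h
      rw [h] at hdeg
      simp at hdeg)
    rwa [hdeg] at this
  have hdiv : r + (X ^ 2 - C (D : ℚ)) * (f /ₘ (X ^ 2 - C (D : ℚ))) = f := modByMonic_add_div f _
  have hlin : r = C (r.coeff 1) * X + C (r.coeff 0) := by
    apply eq_X_add_C_of_natDegree_le_one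
    omega
  have hz : ∀ s : ℝ, s ^ 2 = D → ev s f = (r.coeff 1 : ℝ) * s + r.coeff 0 := by
    intro s hs
    rw [← hdiv, map_add, map_mul]
    have : ev s (X ^ 2 - C (D : ℚ)) = 0 := by
      simp [ev, hs]
    rw [this, zero_mul, add_zero]
    conv_lhs => rw [hlin]
    simp [ev]
  have h1 := hz (√D) (Real.sq_sqrt hD0)
  rw [hf] at h1
  have hc1 : r.coeff 1 = 0 := by
    by_contra hne
    apply hirr
    refine ⟨-(r.coeff 0) / r.coeff 1, ?_⟩
    have hne' : ((r.coeff 1 : ℚ) : ℝ) ≠ 0 := by exact_mod_cast hne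
    push_cast
    field_simp
    linarith
  have hc0 : r.coeff 0 = 0 := by
    rw [hc1] at h1
    have : ((r.coeff 0 : ℚ) : ℝ) = 0 := by simpa using h1.symm
    exact_mod_cast this
  rw [hz (-√D) (by rw [neg_sq, Real.sq_sqrt hD0]), hc1, hc0]
  simp


lemma quat_mul {s : ℝ} {D : ℕ} (hs : s ^ 2 = D) (a b a' b' : ℍ[ℚ]) :
    quat s a b * quat s a' b' = quat s (a * a' + (D : ℚ) • (b * b')) (a * b' + b * a') := by
  ext <;> simp [quat] <;> ring_nf <;> rw [hs] <;> ring

lemma mk_inv_eq {u w : ℍ[ℝ]ˣ} (h : (w : ℍ[ℝ]) = star (u : ℍ[ℝ])) : ((u : PH))⁻¹ = (w : PH) := by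
  apply inv_eq_of_mul_eq_one_right
  rw [← QuotientGroup.mk_mul, QuotientGroup.eq_one_iff]
  apply mem_center_of_val (normSq (u : ℍ[ℝ]))
  rw [Units.val_mul, h, self_mul_star]

lemma sqrt_sq (D : ℕ) : (√(D : ℝ)) ^ 2 = D := Real.sq_sqrt (Nat.cast_nonneg D)

lemma neg_sqrt_sq (D : ℕ) : (-√(D : ℝ)) ^ 2 = D := by rw [neg_sq, sqrt_sq]

/-- The subgroup `G(ℚ)` of `G(ℝ)`. -/
noncomputable def GQ (D : ℕ) : Subgroup GR where
  carrier := {x | ∃ (a b : ℍ[ℚ]) (u v : ℍ[ℝ]ˣ), (u : ℍ[ℝ]) = quat (√D) a b ∧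
    (v : ℍ[ℝ]) = quat (-√D) a b ∧ x = ((u : PH), (v : PH))}
  mul_mem' := by
    rintro x y ⟨a, b, u, v, hu, hv, rfl⟩ ⟨a', b', u', v', hu', hv', rfl⟩
    refine ⟨a * a' + (D : ℚ) • (b * b'), a * b' + b * a', u * u', v * v', ?_, ?_, rfl⟩
    · rw [Units.val_mul, hu, hu', quat_mul (sqrt_sq D)]
    · rw [Units.val_mul, hv, hv', quat_mul (neg_sqrt_sq D)]
  one_mem' := by
    refine ⟨1, 0, 1, 1, ?_, ?_, rfl⟩ <;> ext <;> simp [quat]
  inv_mem' := by
    rintro x ⟨a, b, u, v, hu, hv, rfl⟩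
    have hu0 : star (u : ℍ[ℝ]) ≠ 0 := star_ne_zero.2 u.ne_zero
    have hv0 : star (v : ℍ[ℝ]) ≠ 0 := star_ne_zero.2 v.ne_zero
    refine ⟨star a, star b, Units.mk0 _ hu0, Units.mk0 _ hv0, ?_, ?_, ?_⟩
    · rw [Units.val_mk0, hu]
      ext <;> simp [quat] <;> ring
    · rw [Units.val_mk0, hv]
      ext <;> simp [quat] <;> ring
    · exact Prod.ext (mk_inv_eq rfl) (mk_inv_eq rfl)

/-- The first component of a tuple of pairs in `G(ℝ)`. -/
def fstPart {g : ℕ} (p : Fin g → GR × GR) : Fin g → PH × PH := fun i => ((p i).1.1, (p i).2.1)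

/-- The second component of a tuple of pairs in `G(ℝ)`. -/
def sndPart {g : ℕ} (p : Fin g → GR × GR) : Fin g → PH × PH := fun i => ((p i).1.2, (p i).2.2)

lemma map_relator {G H : Type*} [Group G] [Group H] (f : G →* H) {g : ℕ} (p : Fin g → G × G) :
    f (relator p) = relator (fun i => (f (p i).1, f (p i).2)) := by
  unfold relator
  rw [map_list_prod, List.map_map]
  congr 1
  apply List.map_congr_left
  intro i _
  simp

lemma relator_fst {g : ℕ} (p : Fin g → GR × GR) : relator (fstPart p) = (relator p).1 :=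
  (map_relator (MonoidHom.fst PH PH) p).symm

lemma relator_snd {g : ℕ} (p : Fin g → GR × GR) : relator (sndPart p) = (relator p).2 :=
  (map_relator (MonoidHom.snd PH PH) p).symm

/-- A tuple of pairs of elements of `ℍˣ / ℝˣ = SO(3)` is irreducible if it fixes no line of the
space of the purely imaginary quaternions. -/
def Irr {g : ℕ} (p : Fin g → PH × PH) : Prop :=
  ∀ v : ℍ[ℝ], v.re = 0 → v ≠ 0 → ∃ u : ℍ[ℝ]ˣ, (∃ i, (u : PH) = (p i).1 ∨ (u : PH) = (p i).2) ∧
    ∀ c : ℝ, (u : ℍ[ℝ]) * v * ((u⁻¹ : ℍ[ℝ]ˣ) : ℍ[ℝ]) ≠ c • v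

/-- Both components of the representation are irreducible. -/
def IsIrreducible {g : ℕ} (ρ : Rep g) : Prop := Irr (fstPart ρ.1) ∧ Irr (sndPart ρ.1)

lemma conj_one {g : ℕ} (ρ : Rep g) : conj 1 ρ = ρ := by
  apply Subtype.ext
  simp [conj]

lemma conj_conj {g : ℕ} (x y : GR) (ρ : Rep g) : conj x (conj y ρ) = conj (x * y) ρ := by
  apply Subtype.ext
  funext i
  simp only [conj]
  exact Prod.ext (by group) (by group)

/-- Conjugacy of representations in `Ω`. -/
def orbitSetoid {g : ℕ} (Ω : Set (Rep g)) : Setoid Ω where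
  r ρ ρ' := ∃ x : GR, ρ'.1 = conj x ρ.1
  iseqv :=
    { refl := fun ρ => ⟨1, (conj_one _).symm⟩
      symm := by
        rintro ρ ρ' ⟨x, h⟩
        refine ⟨x⁻¹, ?_⟩
        rw [h, conj_conj, inv_mul_cancel, conj_one]
      trans := by
        rintro ρ ρ' ρ'' ⟨x, h⟩ ⟨y, h'⟩
        exact ⟨y * x, by rw [h', h, conj_conj]⟩ }

/-- The quotient `Ω / G(ℝ)`, with the quotient topology. -/
abbrev CharVar {g : ℕ} (Ω : Set (Rep g)) : Type := Quotient (orbitSetoid Ω)

/-- The representation `ρ` is conjugate into `G(ℚ)`. -/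
def IsRational (D : ℕ) {g : ℕ} (ρ : Rep g) : Prop :=
  ∃ x : GR, ∀ i, x * (ρ.1 i).1 * x⁻¹ ∈ GQ D ∧ x * (ρ.1 i).2 * x⁻¹ ∈ GQ D

/-- The pair of signs. -/
noncomputable def signs {g : ℕ} (ρ : Rep g) : ℝ × ℝ :=
  ((ob (fstPart ρ.1) : ℍ[ℝ]).re, (ob (sndPart ρ.1) : ℍ[ℝ]).re)

lemma fst_relator {g : ℕ} (ρ : Rep g) : relator (fstPart ρ.1) = 1 := by
  rw [relator_fst, ρ.2]; rfl

lemma snd_relator {g : ℕ} (ρ : Rep g) : relator (sndPart ρ.1) = 1 := by
  rw [relator_snd, ρ.2]; rfl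

lemma signs_conj {g : ℕ} (x : GR) (ρ : Rep g) : signs (conj x ρ) = signs ρ := by
  unfold signs
  have h1 : fstPart (conj x ρ).1 = fun i => (x.1 * (fstPart ρ.1 i).1 * x.1⁻¹,
      x.1 * (fstPart ρ.1 i).2 * x.1⁻¹) := rfl
  have h2 : sndPart (conj x ρ).1 = fun i => (x.2 * (sndPart ρ.1 i).1 * x.2⁻¹,
      x.2 * (sndPart ρ.1 i).2 * x.2⁻¹) := rfl
  rw [h1, h2, ob_conj _ (fst_relator ρ), ob_conj _ (snd_relator ρ)]

lemma continuous_signs (g : ℕ) : Continuous (signs : Rep g → ℝ × ℝ) := by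
  have h0 : ∀ i, Continuous fun ρ : Rep g => ρ.1 i := fun i =>
    (continuous_apply i).comp continuous_subtype_val
  have h1 : Continuous fun ρ : Rep g => fstPart ρ.1 :=
    continuous_pi fun i => (h0 i).fst.fst.prodMk (h0 i).snd.fst
  have h2 : Continuous fun ρ : Rep g => sndPart ρ.1 :=
    continuous_pi fun i => (h0 i).fst.snd.prodMk (h0 i).snd.snd
  exact (continuous_re.comp (Units.continuous_val.comp ((continuous_ob g).comp h1))).prodMk
    (continuous_re.comp (Units.continuous_val.comp ((continuous_ob g).comp h2)))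

/-- The possible signs. -/
abbrev signSet : Set (ℝ × ℝ) := ({1, -1} : Set ℝ) ×ˢ ({1, -1} : Set ℝ)

lemma signs_mem {g : ℕ} (ρ : Rep g) : signs ρ ∈ signSet :=
  ⟨(ob_val (fst_relator ρ)).2, (ob_val (snd_relator ρ)).2⟩

/-- The signs of a rational representation are equal. -/
lemma signs_rational {D : ℕ} (hD : ¬ IsSquare D) {g : ℕ} {ρ : Rep g} (h : IsRational D ρ) :
    (signs ρ).1 = (signs ρ).2 := by
  obtain ⟨x, hx⟩ := h
  rw [← signs_conj x ρ]
  have h1 : ∀ i, ((conj x ρ).1 i).1 ∈ GQ D := fun i => (hx i).1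
  have h2 : ∀ i, ((conj x ρ).1 i).2 ∈ GQ D := fun i => (hx i).2
  generalize conj x ρ = σ at h1 h2
  choose a b u v hu hv huv using h1
  choose c d u' v' hu' hv' huv' using h2
  have e1 : fstPart σ.1 = fun i => ((u i : PH), (u' i : PH)) := by
    funext i
    simp only [fstPart, huv, huv']
  have e2 : sndPart σ.1 = fun i => ((v i : PH), (v' i : PH)) := by
    funext i
    simp only [sndPart, huv, huv']
  obtain ⟨n1, f1⟩ := ob_poly (√D) a b c d u u' hu hu'
  obtain ⟨n2, f2⟩ := ob_poly (-√D) a b c d v v' hv hv'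
  rw [← e1] at f1
  rw [← e2] at f2
  set N := ((List.finRange g).map fun i => normSq (polyQuat (a i) (b i)) *
        normSq (polyQuat (c i) (d i))).prod with hN
  set P := ((List.finRange g).map fun i => polyQuat (a i) (b i) * polyQuat (c i) (d i) *
        star (polyQuat (a i) (b i)) * star (polyQuat (c i) (d i))).prod with hP
  have g1 : ev (√D) N * (signs σ).1 = ev (√D) P.re := by
    have := congrArg (fun q : ℍ[ℝ] => q.re) f1
    simpa [signs] using this
  have g2 : ev (-√D) N * (signs σ).2 = ev (-√D) P.re := by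
    have := congrArg (fun q : ℍ[ℝ] => q.re) f2
    simpa [signs] using this
  -- the sign is an integer
  obtain ⟨e, he⟩ : ∃ e : ℚ, (e : ℝ) = (signs σ).1 := by
    rcases (signs_mem σ).1 with h | h
    · exact ⟨1, by rw [h]; simp⟩
    · exact ⟨-1, by rw [h]; simp⟩
  have hz : ev (√D) (P.re - N * Polynomial.C e) = 0 := by
    rw [map_sub, map_mul, ← g1, ← he]
    simp [ev]
  have hz' := ev_conj hD hz
  rw [map_sub, map_mul, ← g2] at hz'
  have he' : ev (-√D) (Polynomial.C e) = (signs σ).1 := by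
    rw [← he]
    simp [ev]
  rw [he', ← mul_sub] at hz'
  have := (mul_eq_zero.1 hz').resolve_left n2
  linarith

/-! ### A representation with the signs `-1` and `1` -/

/-- The unit `i`. -/
noncomputable def uI : ℍ[ℝ]ˣ := Units.mk0 (mkq 0 1 0 0) (mkq_ne_zero (by simp))

/-- The unit `j`. -/
noncomputable def uJ : ℍ[ℝ]ˣ := Units.mk0 (mkq 0 0 1 0) (mkq_ne_zero (by simp))

/-- The unit `1 + i + j + k`. -/
noncomputable def uW : ℍ[ℝ]ˣ := Units.mk0 (mkq 1 1 1 1) (mkq_ne_zero (by simp))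

lemma irr_aux (v : ℍ[ℝ]) (hre : v.re = 0) (hv : v ≠ 0) :
    (∀ c : ℝ, (uI : ℍ[ℝ]) * v * ((uI⁻¹ : ℍ[ℝ]ˣ) : ℍ[ℝ]) ≠ c • v) ∨
      (∀ c : ℝ, (uW : ℍ[ℝ]) * v * ((uW⁻¹ : ℍ[ℝ]ˣ) : ℍ[ℝ]) ≠ c • v) := by
  by_contra hcon
  push Not at hcon
  obtain ⟨⟨c, hc⟩, ⟨c', hc'⟩⟩ := hcon
  have h1 : (uI : ℍ[ℝ]) * v = c • (v * uI) := by
    rw [← smul_mul_assoc, ← hc, Units.inv_mul_cancel_right]
  have h2 : (uW : ℍ[ℝ]) * v = c' • (v * uW) := by
    rw [← smul_mul_assoc, ← hc', Units.inv_mul_cancel_right]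
  have a0 := congrArg (fun q => q.re) h1
  have a2 := congrArg (fun q => q.imJ) h1
  have a3 := congrArg (fun q => q.imK) h1
  have b0 := congrArg (fun q => q.re) h2
  have b1 := congrArg (fun q => q.imI) h2
  have b2 := congrArg (fun q => q.imJ) h2
  have b3 := congrArg (fun q => q.imK) h2
  simp [uI, uW, hre] at a0 a2 a3 b0 b1 b2 b3
  apply hv
  have hx : v.imI = 0 ∧ v.imJ = 0 ∧ v.imK = 0 := by
    generalize v.imI = x at *
    generalize v.imJ = y at *
    generalize v.imK = z at *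
    have hx : x * (1 - c) = 0 := by linear_combination a0
    rcases mul_eq_zero.1 hx with h | h
    · subst h
      have hz : (z - y) * (1 + c') = 0 := by linear_combination b1
      rcases mul_eq_zero.1 hz with h | h
      · have : z = y := by linarith
        subst this
        have : z = 0 := by linarith
        exact ⟨rfl, this, this⟩
      · have : c' = -1 := by linarith
        subst this
        exact ⟨rfl, by linarith, by linarith⟩
    · have : c = 1 := by linarith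
      subst this
      have hz : z = 0 := by linarith
      have hy : y = 0 := by linarith
      subst hz
      subst hy
      exact ⟨by linarith, rfl, rfl⟩
  ext
  · simpa using hre
  · simpa using hx.1
  · simpa using hx.2.1
  · simpa using hx.2.2

lemma irr_of_mem {g : ℕ} {p : Fin g → PH × PH}
    (hI : ∃ i, (uI : PH) = (p i).1 ∨ (uI : PH) = (p i).2)
    (hW : ∃ i, (uW : PH) = (p i).1 ∨ (uW : PH) = (p i).2) : Irr p := by
  intro v hre hv
  rcases irr_aux v hre hv with h | h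
  · exact ⟨uI, hI, h⟩
  · exact ⟨uW, hW, h⟩

/-- The tuple of the example. -/
noncomputable def exTuple (g : ℕ) (i : Fin g) : GR × GR :=
  if i.1 = 0 then (((uI : PH), (uI : PH)), ((uJ : PH), (uI : PH)))
  else if i.1 = 1 then (((uW : PH), (uW : PH)), ((uW : PH), (uW : PH))) else 1

lemma ob_succ_succ {n : ℕ} (p : Fin (n + 2) → PH × PH)
    (h : ∀ i : Fin n, cm (p i.succ.succ).1 (p i.succ.succ).2 = 1) :
    ob p = cm (p 0).1 (p 0).2 * cm (p 1).1 (p 1).2 := by
  unfold ob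
  rw [List.finRange_succ, List.map_cons, List.prod_cons, List.finRange_succ, List.map_cons,
    List.map_cons, List.prod_cons, List.map_map, List.map_map, List.prod_eq_one]
  · rw [mul_one]; rfl
  · intro x hx
    rw [List.mem_map] at hx
    obtain ⟨i, -, rfl⟩ := hx
    exact h i

lemma cm_one_one : cm 1 1 = 1 := by
  have := cm_mk 1 1
  simpa using this

lemma cm_self (u : ℍ[ℝ]ˣ) : cm (u : PH) (u : PH) = 1 := by
  rw [cm_mk]
  group

lemma cm_uI_uJ : ((cm (uI : PH) (uJ : PH) : ℍ[ℝ]ˣ) : ℍ[ℝ]) = -1 := by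
  rw [cm_mk, cm_val]
  simp only [uI, uJ, Units.val_mk0, normSq_def']
  ext <;> simp

lemma ob_fst_ex (n : ℕ) : (ob (fstPart (exTuple (n + 2))) : ℍ[ℝ]) = -1 := by
  rw [ob_succ_succ]
  · have h0 : fstPart (exTuple (n + 2)) 0 = ((uI : PH), (uJ : PH)) := by
      simp [fstPart, exTuple]
    have h1 : fstPart (exTuple (n + 2)) 1 = ((uW : PH), (uW : PH)) := by
      simp [fstPart, exTuple]
    rw [h0, h1, cm_self, mul_one, cm_uI_uJ]
  · intro i
    have : fstPart (exTuple (n + 2)) i.succ.succ = (1, 1) := by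
      simp [fstPart, exTuple]
    rw [this]
    exact cm_one_one

lemma ob_snd_ex (n : ℕ) : ob (sndPart (exTuple (n + 2))) = 1 := by
  rw [ob_succ_succ]
  · have h0 : sndPart (exTuple (n + 2)) 0 = ((uI : PH), (uI : PH)) := by
      simp [sndPart, exTuple]
    have h1 : sndPart (exTuple (n + 2)) 1 = ((uW : PH), (uW : PH)) := by
      simp [sndPart, exTuple]
    rw [h0, h1, cm_self, cm_self, mul_one]
  · intro i
    have : sndPart (exTuple (n + 2)) i.succ.succ = (1, 1) := by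
      simp [sndPart, exTuple]
    rw [this]
    exact cm_one_one

lemma relator_ex (n : ℕ) : relator (exTuple (n + 2)) = 1 := by
  apply Prod.ext
  · rw [← relator_fst, ← mk_ob, Prod.fst_one, QuotientGroup.eq_one_iff]
    apply mem_center_of_val (-1)
    rw [ob_fst_ex]
    simp
  · rw [← relator_snd, ← mk_ob, ob_snd_ex]
    rfl

/-- The example. -/
noncomputable def exRep (n : ℕ) : Rep (n + 2) := ⟨exTuple (n + 2), relator_ex n⟩

lemma irr_ex (n : ℕ) : IsIrreducible (exRep n) := by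
  constructor
  · apply irr_of_mem
    · exact ⟨0, Or.inl (by simp [fstPart, exRep, exTuple])⟩
    · exact ⟨1, Or.inl (by simp [fstPart, exRep, exTuple])⟩
  · apply irr_of_mem
    · exact ⟨0, Or.inl (by simp [sndPart, exRep, exTuple])⟩
    · exact ⟨1, Or.inl (by simp [sndPart, exRep, exTuple])⟩

lemma signs_ex (n : ℕ) : signs (exRep n) = (-1, 1) := by
  unfold signs exRep
  rw [ob_fst_ex, ob_snd_ex]
  simp

lemma isOpen_signs (g : ℕ) : IsOpen {ρ : Rep g | signs ρ = (-1, 1)} := by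
  have : {ρ : Rep g | signs ρ = (-1, 1)} = signs ⁻¹' (Set.Iio 0 ×ˢ Set.Ioi 0) := by
    ext ρ
    simp only [Set.mem_ofPred_eq, Set.mem_preimage, Set.mem_prod, Set.mem_Iio, Set.mem_Ioi]
    constructor
    · intro h; rw [h]; simp
    · rintro ⟨h1, h2⟩
      obtain ⟨h3, h4⟩ := signs_mem ρ
      refine Prod.ext ?_ ?_
      · rcases h3 with h | h
        · rw [h] at h1; norm_num at h1
        · exact h
      · rcases h4 with h | h
        · exact h
        · rw [h] at h2; norm_num at h2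
  rw [this]
  exact (isOpen_Iio.prod isOpen_Ioi).preimage (continuous_signs g)

/-- The signs as a function on the quotient. -/
noncomputable def qsigns {g : ℕ} (Ω : Set (Rep g)) : CharVar Ω → ℝ × ℝ :=
  Quotient.lift (fun ρ : Ω => signs ρ.1) (by
    rintro ρ ρ' ⟨x, h⟩
    show signs ρ.1 = signs ρ'.1
    rw [h, signs_conj])

lemma continuous_qsigns {g : ℕ} (Ω : Set (Rep g)) : Continuous (qsigns Ω) :=
  Continuous.quotient_lift ((continuous_signs g).comp continuous_subtype_val) _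

/-- For every genus `g ≥ 2`, every non-square `D` and every set `Ω` of representations
`π₁(S_g) → G(ℝ)` that contains all irreducible ones or is dense, some connected component of
`Ω/G(ℝ)` contains no class of a representation that is conjugate into `G(ℚ)`. -/
theorem result (D : ℕ) (hD : ¬ IsSquare D) (g : ℕ) (hg : 2 ≤ g) (Ω : Set (Rep g))
    (hΩ : {ρ | IsIrreducible ρ} ⊆ Ω ∨ Dense Ω) :
    ∃ x : CharVar Ω, ∀ ρ : Ω, Quotient.mk (orbitSetoid Ω) ρ ∈ connectedComponent x →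
      ¬ IsRational D ρ.1 := by
  obtain ⟨ρ, hρΩ, hρ⟩ : ∃ ρ ∈ Ω, signs ρ = (-1, 1) := by
    obtain ⟨n, rfl⟩ := Nat.exists_eq_add_of_le' hg
    rcases hΩ with h | h
    · exact ⟨exRep n, h (irr_ex n), signs_ex n⟩
    · obtain ⟨ρ, h1, h2⟩ := h.inter_open_nonempty _ (isOpen_signs (n + 2)) ⟨exRep n, signs_ex n⟩
      exact ⟨ρ, h2, h1⟩
  refine ⟨Quotient.mk _ ⟨ρ, hρΩ⟩, ?_⟩
  rintro ⟨σ, hσ⟩ hmem hrat
  have hT : IsDiscrete signSet :=
    (((Set.finite_singleton (-1 : ℝ)).insert 1).prod ((Set.finite_singleton (-1 : ℝ)).insert 1)).isDiscrete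
  have hmaps : Set.MapsTo (qsigns Ω) (connectedComponent (Quotient.mk _ ⟨ρ, hρΩ⟩)) signSet := by
    intro y _
    induction y using Quotient.inductionOn with | _ τ =>
    exact signs_mem τ.1
  have := isPreconnected_connectedComponent.constant_of_mapsTo hT
    (continuous_qsigns Ω).continuousOn hmaps hmem mem_connectedComponent
  have h1 : signs σ = signs ρ := this
  have h2 := signs_rational hD hrat
  rw [h1, hρ] at h2
  norm_num at h2

end Pool.Agent.Results.MP_52c00a_gt.NoRationalPoint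


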